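import Pool.Agent.Helper71_HNF.StmtR

/-!
# HNF, module E2STP

Existence of the next record of engine II.
-/

set_option autoImplicit false
set_option linter.unusedSectionVars false

namespace Pool.Agent.HNF.H5

open Topology Set Filter

section Soft

variable {G : Type} [Group G] [TopologicalSpace G] [IsTopologicalGroup G]

/-- small open windows -/
theorem soft [RegularSpace G] (Γ : Gauge G) (t : ℕ) (v g : G) (P E F : Set G) (hP : P ∈ 𝓝 v)
    (hE : E ∈ 𝓝 (1 : G)) (hF : F ∈ 𝓝 (1 : G)) :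
    ∃ A L A' B' : Set G, IsOpen A ∧ (1 : G) ∈ A ∧ IsOpen L ∧ (1 : G) ∈ L ∧ A ⊆ E ∧
      (∀ x ∈ A, ∀ l ∈ L, x * l ∈ F) ∧ (∀ x ∈ closure A, x * v ∈ P) ∧
      Γ.Sm t {x | ∃ y ∈ closure A, x = y * g} ∧ A' ∈ 𝓝 (1 : G) ∧ B' ∈ 𝓝 (1 : G) ∧
      ∀ τ ∈ B', ∀ x ∈ A', τ⁻¹ * x ∈ A := by
  obtain ⟨W, hWo, hW1, hWF⟩ := exists_open_nhds_one_mul_subset hF
  obtain ⟨U, hU, hSm⟩ := Γ.nhds t g
  have h1 : {x : G | x * v ∈ P} ∈ 𝓝 (1 : G) := by
    have hc : Continuous fun x : G => x * v := by fun_prop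
    apply (hc.continuousAt (x := (1 : G))).preimage_mem_nhds
    simpa using hP
  have h2 : {x : G | x * g ∈ U} ∈ 𝓝 (1 : G) := by
    have hc : Continuous fun x : G => x * g := by fun_prop
    apply (hc.continuousAt (x := (1 : G))).preimage_mem_nhds
    simpa using hU
  obtain ⟨T, hT, hTc, hTs⟩ := exists_mem_nhds_isClosed_subset
    (inter_mem (inter_mem hE (hWo.mem_nhds hW1)) (inter_mem h1 h2))
  have hcl : closure (interior T) ⊆ T := closure_minimal interior_subset hTc
  have hA : interior T ∈ 𝓝 (1 : G) := interior_mem_nhds.2 hT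
  have h3 : {p : G × G | p.1⁻¹ * p.2 ∈ interior T} ∈ 𝓝 ((1, 1) : G × G) := by
    have hc : Continuous fun p : G × G => p.1⁻¹ * p.2 := by fun_prop
    apply (hc.continuousAt (x := ((1, 1) : G × G))).preimage_mem_nhds
    simpa using hA
  rw [nhds_prod_eq, mem_prod_iff] at h3
  obtain ⟨B', hB', A', hA', hsub⟩ := h3
  refine ⟨interior T, W, A', B', isOpen_interior, mem_of_mem_nhds hA, hWo, hW1,
    fun x hx => (hTs (interior_subset hx)).1.1, fun x hx l hl =>
      hWF (mul_mem_mul (hTs (interior_subset hx)).1.2 hl), fun x hx => (hTs (hcl hx)).2.1,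
    Γ.mono _ _ _ ?_ hSm, hA', hB', fun τ hτ x hx => hsub (mk_mem_prod hτ hx)⟩
  rintro _ ⟨y, hy, rfl⟩
  exact (hTs (hcl hy)).2.2

theorem ev_conj (N : LNorm G) (y : G) {c : ℝ} (hc : 0 < c) :
    ∀ᶠ x in 𝓝 (1 : G), N.N (y⁻¹ * x * y) < c := by
  have hcont : Continuous fun x : G => N.N (y⁻¹ * x * y) :=
    N.cont.comp (by fun_prop)
  have h1 : N.N (y⁻¹ * 1 * y) < c := by
    rw [mul_one, inv_mul_cancel, N.one]
    exact hc
  exact (hcont.continuousAt (x := (1 : G))).eventually_lt continuousAt_const h1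

theorem ev_small (N : LNorm G) {S : Set G} (hS : S ∈ 𝓝 (1 : G)) (k : ℝ) (hk : 0 < k) :
    ∀ᶠ η in 𝓝[>] (0 : ℝ), ∀ g, N.N g < k * η → g ∈ S := by
  obtain ⟨ε, hε, h⟩ := N.basis S hS
  have h1 : ∀ᶠ η in 𝓝[>] (0 : ℝ), η < ε / k :=
    mem_nhdsWithin_of_mem_nhds (Iio_mem_nhds (div_pos hε hk))
  filter_upwards [h1] with η hη g hg
  apply h
  have h2 : k * η < k * (ε / k) := mul_lt_mul_of_pos_left hη hk
  have h3 : k * (ε / k) = ε := by field_simp
  linarith

theorem srv_mono {N : LNorm G} {B β β' : Set G} {Q Q' : Set (G × ℝ)} (h : Srv N B β Q)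
    (hβ : β' ⊆ β) (hQ : Q' ⊆ Q) : Srv N B β' Q' := by
  intro C hC
  obtain ⟨τ, h1, h2, h3⟩ := h C hC
  exact ⟨τ, h1, fun s hs => h2 s (hβ hs), fun p hp c hc s hs => h3 p (hQ hp) c hc s (hβ hs)⟩

theorem srv_empty {N : LNorm G} {B β : Set G} (h1 : (1 : G) ∈ B) (h : β ⊆ B) :
    Srv N B β ∅ := by
  intro C _
  refine ⟨1, h1, fun s hs => by simpa using h hs, fun p hp => absurd hp (by simp)⟩

end Soft

theorem finite_lt_set (n : ℕ) {α : Type*} (f : ℕ → Set α) (hf : ∀ i < n, (f i).Finite) :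
    {x | ∃ i < n, x ∈ f i}.Finite := by
  have h1 : {x | ∃ i < n, x ∈ f i} = ⋃ i ∈ Iio n, f i := by
    ext x
    simp
  rw [h1]
  exact (finite_Iio n).biUnion hf

section Fin

variable {G : Type} [Group G] [TopologicalSpace G] (I : Idx) (N : LNorm G) (q : ℕ → G)
  (D : Dat G)

theorem Qlt_finite (w t : ℕ) : (Qlt I N q D w t).Finite := by
  refine (finite_lt_set t (fun t' => {x | ∃ i < I.rd t', x ∈ ({(D.g t' * q i, lev I t' / 8)} :
    Set (G × ℝ))}) fun t' _ => finite_lt_set _ _ fun i _ => finite_singleton _).subset ?_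
  rintro x ⟨t', -, ht', i, hi, -, rfl⟩
  exact ⟨t', ht', i, hi, rfl⟩

theorem Cst_finite (t : ℕ) : (Cst I q D t).Finite := by
  refine Finite.union (Finite.union ?_ ?_) ?_
  · refine (finite_lt_set t (fun t' => {x | ∃ i < I.rd t', x ∈ ({D.g t' * q i} : Set G)})
      fun t' _ => finite_lt_set _ _ fun i _ => finite_singleton _).subset ?_
    rintro x ⟨t', ht', i, hi, rfl⟩
    exact ⟨t', ht', i, hi, rfl⟩
  · refine (finite_lt_set (I.rd t) (fun i => ({D.g (I.par t) * q i} : Set G))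
      fun i _ => finite_singleton _).subset ?_
    rintro x ⟨i, hi, rfl⟩
    exact ⟨i, hi, rfl⟩
  · refine (finite_lt_set (I.rd t) (fun i => {x | ∃ o < t, x ∈ {x | ∃ j < t, x ∈
      {x | ∃ tN < t, x ∈ {x | ∃ i' < I.rd tN, x ∈
        ({D.g (I.par t) * q i * eps0 q D o j tN i'} : Set G)}}}})
      fun i _ => finite_lt_set _ _ fun o _ => finite_lt_set _ _ fun j _ =>
        finite_lt_set _ _ fun tN _ => finite_lt_set _ _ fun i' _ => finite_singleton _).subset ?_
    rintro x ⟨i, hi, o, ho, j, hj, tN, htN, i', hi', rfl⟩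
    exact ⟨i, hi, o, ho, j, hj, tN, htN, i', hi', rfl⟩

theorem lev_pos (t : ℕ) : 0 < lev I t := by
  rw [lev]
  positivity

theorem lev_le_one (t : ℕ) : lev I t ≤ 1 := by
  rw [lev, div_le_one (by positivity)]
  have : (0 : ℝ) ≤ I.mp t := Nat.cast_nonneg _
  linarith

end Fin

theorem e2stp (hown : E2OwnStmt) (hstep : E2StepStmt) : E2StpStmt := by
  intro G _ _ _ _ hPhi I N q Γ t h hist
  -- the choice of `v`, `g` and the reserve of the older nodes
  obtain ⟨v, g, P, β', hP, hβ', hzero, hvmem, hg, hnest, hsrv, hserved, havoid⟩ :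
      ∃ (v g : G) (P β' : Set G), P ∈ 𝓝 v ∧ β' ∈ 𝓝 (1 : G) ∧
        (t = 0 → v = 1 ∧ g = 1) ∧
        (0 < t → ∃ τ ∈ (h (I.par t)).B', ∃ m, v = τ⁻¹ * (h (I.par t)).a m) ∧
        (0 < t → g = v * (h (I.par t)).g) ∧
        (0 < t → P ⊆ (h (I.par t)).A) ∧
        (∀ w < t, Srv N (h w).B' β' (Qlt I N q (D2 h) w t ∪
          {x | ∃ i < I.rd t, (∃ y, RelI I N q (D2 h) t i y) ∧ x = (g * q i, lev I t / 8)})) ∧
        (0 < t → ∀ x ∈ Qlt I N q (D2 h) (I.par t) t, ∀ c ∈ Cst I q (D2 h) t,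
          x.2 / 10 ≤ N.N (c⁻¹ * (v⁻¹ * x.1))) ∧
        (0 < t → ∀ i < I.rd t, (∃ y, RelI I N q (D2 h) t i y) → ∀ c ∈ Cst I q (D2 h) t,
          lev I t / 4 ≤ N.N (c⁻¹ * (v * ((h (I.par t)).g * q i)))) := by
    rcases Nat.eq_zero_or_pos t with rfl | ht
    · exact ⟨1, 1, univ, univ, univ_mem, univ_mem, fun _ => ⟨rfl, rfl⟩,
        fun h0 => absurd h0 (lt_irrefl 0), fun h0 => absurd h0 (lt_irrefl 0),
        fun h0 => absurd h0 (lt_irrefl 0), fun w hw => absurd hw (Nat.not_lt_zero w),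
        fun h0 => absurd h0 (lt_irrefl 0), fun h0 => absurd h0 (lt_irrefl 0)⟩
    · have hp : I.par t < t := I.par_lt t ht
      have hQp := hist (I.par t) hp
      -- the reserve of the last stage
      obtain ⟨s, rfl⟩ : ∃ s, t = s + 1 := ⟨t - 1, by omega⟩
      have hQs := hist s (Nat.lt_succ_self s)
      have hth : I.th (s + 1) < s + 1 := I.th_lt _ ht
      have hQth := hist _ hth
      have hSrv : ∀ w < s + 1, Srv N (h w).B' (h s).β (Qlt I N q (D2 h) w (s + 1)) := by
        intro w hw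
        rcases Nat.lt_succ_iff_lt_or_eq.1 hw with hws | rfl
        · refine srv_mono (hQs.srv w hws) subset_rfl ?_
          rintro x ⟨t', hwt', ht', i, hi, hrel, rfl⟩
          rcases Nat.lt_succ_iff_lt_or_eq.1 ht' with h1 | rfl
          · exact Or.inl ⟨t', hwt', h1, i, hi, hrel, rfl⟩
          · exact Or.inr ⟨i, hi, hrel, rfl⟩
        · refine srv_mono hQs.srv_self subset_rfl ?_
          rintro x ⟨t', hwt', ht', -⟩
          exact absurd ht' (by omega)
      set Z : Set G := {ζ | ∃ i < I.rd (s + 1), (∃ y, RelI I N q (D2 h) (s + 1) i y) ∧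
        ζ = (h (I.par (s + 1))).g * q i} with hZ
      have hZfin : Z.Finite := by
        refine (finite_lt_set (I.rd (s + 1)) (fun i => ({(h (I.par (s + 1))).g * q i} : Set G))
          fun i _ => finite_singleton _).subset ?_
        rintro x ⟨i, hi, -, rfl⟩
        exact ⟨i, hi, rfl⟩
      have hρ : 0 < lev I (s + 1) := lev_pos I _
      obtain ⟨τ, hτ, m, β', hβ', hβs, ha, hb, hc⟩ := hstep G N (h (I.par (s + 1))).A'
        (h (I.par (s + 1))).e (h (I.par (s + 1))).a hQp.own (s + 1) (I.par (s + 1)) hp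
        (fun w => (h w).B') (fun w => Qlt I N q (D2 h) w (s + 1)) (h s).β hQs.β
        (fun w => Qlt_finite I N q (D2 h) w (s + 1)) (by
          rintro w x ⟨t', -, -, i, -, -, rfl⟩
          have := lev_pos I t'
          simp only
          positivity) hSrv (Cst I q (D2 h) (s + 1)) (Cst_finite I q (D2 h) (s + 1)) Z hZfin
        (lev I (s + 1)) hρ (lev_le_one I _) (by
          rintro ζ ⟨i, hi, ⟨y, hy⟩, rfl⟩
          refine ⟨y, ?_, hy.1.2.2⟩
          refine hy.2.trans_le (hQth.η_small.trans ?_)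
          have h1 : (I.mp (s + 1) : ℝ) ≤ I.th (s + 1) := by exact_mod_cast I.mp_le (s + 1)
          have h2 : (0 : ℝ) ≤ I.mp (s + 1) := Nat.cast_nonneg _
          rw [lev, div_div, mul_comm]
          apply one_div_le_one_div_of_le
          · positivity
          · linarith)
      refine ⟨τ⁻¹ * (h (I.par (s + 1))).a m, τ⁻¹ * (h (I.par (s + 1))).a m *
        (h (I.par (s + 1))).g, (h (I.par (s + 1))).A, β', ?_, hβ', fun h0 => absurd h0 (by omega),
        fun _ => ⟨τ, hτ, m, rfl⟩, fun _ => rfl, fun _ => subset_rfl, ?_, ?_, ?_⟩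
      · exact hQp.A_open.mem_nhds (hQp.AB τ hτ _ (hQp.own.mem m))
      · intro w hw
        refine srv_mono (hc w hw) subset_rfl ?_
        apply union_subset_union_right
        rintro x ⟨i, hi, hrel, rfl⟩
        exact ⟨_, ⟨i, hi, hrel, rfl⟩, by rw [mul_assoc]⟩
      · intro _ x hx c hc
        exact ha x hx c hc
      · intro _ i hi hrel c hc
        exact hb _ ⟨i, hi, hrel, rfl⟩ c hc
  -- windows
  have hηpos : ∀ s < t, 0 < (h s).η := fun s hs => (hist s hs).η_pos
  have hE : {x : G | 0 < t → ∀ i < I.rd t,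
      N.N ((g * q i)⁻¹ * x * (g * q i)) < (h (I.th t)).η} ∈ 𝓝 (1 : G) := by
    rcases Nat.eq_zero_or_pos t with rfl | ht
    · exact Filter.Eventually.of_forall fun x h0 => absurd h0 (lt_irrefl 0)
    · have h1 : ∀ᶠ x in 𝓝 (1 : G), ∀ i ∈ Iio (I.rd t),
          N.N ((g * q i)⁻¹ * x * (g * q i)) < (h (I.th t)).η := by
        rw [Filter.eventually_all_finite (finite_Iio _)]
        intro i _
        exact ev_conj N _ (hηpos _ (I.th_lt t ht))
      filter_upwards [h1] with x hx _ i hi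
      exact hx i hi
  have hF : {z : G | ∀ t' < t, 0 < t' → ∀ i < I.rd t',
      N.N (((h t').g * q i)⁻¹ * z * ((h t').g * q i)) ≤ (h (I.th t')).η} ∈ 𝓝 (1 : G) := by
    have h1 : ∀ᶠ z in 𝓝 (1 : G), ∀ t' ∈ Iio t, 0 < t' → ∀ i ∈ Iio (I.rd t'),
        N.N (((h t').g * q i)⁻¹ * z * ((h t').g * q i)) < (h (I.th t')).η := by
      rw [Filter.eventually_all_finite (finite_Iio _)]
      intro t' ht'
      by_cases h0 : 0 < t'
      · have h2 : ∀ᶠ z in 𝓝 (1 : G), ∀ i ∈ Iio (I.rd t'),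
            N.N (((h t').g * q i)⁻¹ * z * ((h t').g * q i)) < (h (I.th t')).η := by
          rw [Filter.eventually_all_finite (finite_Iio _)]
          intro i _
          exact ev_conj N _ (hηpos _ ((I.th_lt t' h0).trans ht'))
        filter_upwards [h2] with z hz _ i hi
        exact hz i hi
      · exact Filter.Eventually.of_forall fun z h1 => absurd h1 h0
    filter_upwards [h1] with z hz t' ht' h0 i hi
    exact (hz t' ht' h0 i hi).le
  obtain ⟨A, L, A', B', hAo, hA1, hLo, hL1, hAE, hALF, hcl, hSm, hA', hB', hAB⟩ :=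
    soft Γ t v g P _ _ hP hE hF
  obtain ⟨e, a, hOwn⟩ := hown G hPhi N A' hA'
  -- the error bound
  have hη : ∀ᶠ η in 𝓝[>] (0 : ℝ), 0 < η ∧ (∀ s ∈ Iio t, η ≤ (h s).η) ∧
      η ≤ 1 / (1000 * ((t : ℝ) + 1)) ∧
      ∀ o ∈ Iio t, ∀ j ∈ Iio t, ∀ tN ∈ Iio t, 0 < tN → ∀ i ∈ Iio (I.rd tN), ∀ g,
        N.N g < 2 * η → N.N ((eps0 q (D2 h) o j tN i)⁻¹ * g * eps0 q (D2 h) o j tN i) <
          (h (I.th tN)).η := by
    have hle : ∀ c : ℝ, 0 < c → ∀ᶠ η in 𝓝[>] (0 : ℝ), η ≤ c := fun c hc =>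
      mem_nhdsWithin_of_mem_nhds (Iic_mem_nhds hc)
    refine (eventually_mem_nhdsWithin).and (Filter.Eventually.and ?_
      (Filter.Eventually.and (hle _ (by positivity)) ?_))
    · rw [Filter.eventually_all_finite (finite_Iio _)]
      exact fun s hs => hle _ (hηpos s hs)
    · rw [Filter.eventually_all_finite (finite_Iio _)]
      intro o _
      rw [Filter.eventually_all_finite (finite_Iio _)]
      intro j _
      rw [Filter.eventually_all_finite (finite_Iio _)]
      intro tN htN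
      by_cases h0 : 0 < tN
      · have h2 : ∀ᶠ η in 𝓝[>] (0 : ℝ), ∀ i ∈ Iio (I.rd tN), ∀ g,
            N.N g < 2 * η → N.N ((eps0 q (D2 h) o j tN i)⁻¹ * g * eps0 q (D2 h) o j tN i) <
              (h (I.th tN)).η := by
          rw [Filter.eventually_all_finite (finite_Iio _)]
          intro i _
          exact ev_small N (ev_conj N (eps0 q (D2 h) o j tN i)
            (hηpos _ ((I.th_lt tN h0).trans htN))) 2 two_pos
        filter_upwards [h2] with η hη _ i hi
        exact hη i hi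
      · exact Filter.Eventually.of_forall fun η h1 => absurd h1 h0
  obtain ⟨η, hη0, hη1, hη2, hη3⟩ := hη.exists
  refine ⟨⟨v, g, A, L, e, η, A', B', a, β' ∩ B'⟩, ?_⟩
  exact
    { zero := hzero
      v_mem := hvmem
      g_eq := hg
      A_open := hAo
      A_one := hA1
      L_open := hLo
      L_one := hL1
      nest := fun ht x hx => hnest ht (hcl x hx)
      gauge := hSm
      right := fun ht i hi x hx => hAE hx ht i hi
      inv := fun t' ht' h0 i hi x hx l hl => hALF x hx l hl t' ht' h0 i hi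
      AB := hAB
      own := hOwn
      β := inter_mem hβ' hB'
      srv_self := srv_empty (mem_of_mem_nhds hB') inter_subset_right
      srv := fun w hw => srv_mono (hsrv w hw) inter_subset_left subset_rfl
      η_pos := hη0
      η_le := hη1
      η_small := hη2
      η_conj := fun o ho j hj tN htN h0 i hi g hg => (hη3 o ho j hj tN htN h0 i hi g hg).le
      served := hserved
      avoid := havoid }

end Pool.Agent.HNF.H5
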