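import Pool.Agent.Helper71_HNF.Stmt

/-!
# HNF, module IDX

There is a concrete index system.
-/

set_option autoImplicit false

namespace Pool.Agent.HNF.H5

open Classical in
/-- the concrete coordinates of a node -/
noncomputable def co (t : ℕ) : Option (List (ℕ × ℕ) × ℕ × Bool) :=
  if h : ∃ p : List (ℕ × ℕ) × ℕ × Bool, IsNode p.1 p.2.1 p.2.2 t then some h.choose else none

theorem pidx_cons_pos (a : ℕ × ℕ) (s : List (ℕ × ℕ)) : 0 < pidx (a :: s) := by
  have h1 : a.1 + 1 ≤ Nat.pair (a.1 + 1) a.2 := Nat.left_le_pair _ _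
  have h2 : Nat.pair (a.1 + 1) a.2 ≤ Nat.pair (pidx s) (Nat.pair (a.1 + 1) a.2) :=
    Nat.right_le_pair _ _
  simp only [pidx]
  omega

theorem pidx_pos {s : List (ℕ × ℕ)} (hs : s ≠ []) : 0 < pidx s := by
  cases s with
  | nil => exact absurd rfl hs
  | cons a s => exact pidx_cons_pos a s

theorem pidx_inj : ∀ s s' : List (ℕ × ℕ), pidx s = pidx s' → s = s'
  | [], [], _ => rfl
  | [], a :: s, h => absurd h (by have := pidx_cons_pos a s; simp only [pidx] at this ⊢; omega)
  | a :: s, [], h => absurd h (by have := pidx_cons_pos a s; simp only [pidx] at this ⊢; omega)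
  | a :: s, a' :: s', h => by
    simp only [pidx] at h
    have h1 := Nat.pair_eq_pair.1 (Nat.eq_of_mul_eq_mul_left (by norm_num) h)
    have h2 := Nat.pair_eq_pair.1 h1.2
    have h3 := pidx_inj s s' h1.1
    rw [h3]
    congr 1
    ext
    · omega
    · exact h2.2

theorem nidx_inj {s s' : List (ℕ × ℕ)} {m m' : ℕ} {b b' : Bool}
    (h : nidx s m b = nidx s' m' b') : s = s' ∧ m = m' ∧ b = b' := by
  simp only [nidx] at h
  have hb : b = b' := by
    cases b <;> cases b' <;> simp at h ⊢ <;> omega
  subst hb
  have h1 : Nat.pair (pidx s) m = Nat.pair (pidx s') m' := by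
    cases b <;> simp at h <;> first | omega | simpa using h
  have h2 := Nat.pair_eq_pair.1 h1
  exact ⟨pidx_inj _ _ h2.1, h2.2, rfl⟩

theorem IsNode.co {s : List (ℕ × ℕ)} {m : ℕ} {b : Bool} {t : ℕ} (h : IsNode s m b t) :
    co t = some (s, m, b) := by
  have hex : ∃ p : List (ℕ × ℕ) × ℕ × Bool, IsNode p.1 p.2.1 p.2.2 t := ⟨(s, m, b), h⟩
  rw [H5.co, dif_pos hex]
  have h1 := hex.choose_spec
  have h2 : nidx hex.choose.1 hex.choose.2.1 hex.choose.2.2 = nidx s m b := by
    rw [← h1.1, ← h.1]
  obtain ⟨h3, h4, h5⟩ := nidx_inj h2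
  congr 1
  exact Prod.ext h3 (Prod.ext h4 h5)

theorem co_none {t : ℕ} (h : co t = none) (s : List (ℕ × ℕ)) (m : ℕ) (b : Bool) :
    ¬ IsNode s m b t := by
  intro h1
  rw [IsNode.co h1] at h
  exact absurd h (by simp)

theorem co_some {t : ℕ} {p : List (ℕ × ℕ) × ℕ × Bool} (h : co t = some p) :
    IsNode p.1 p.2.1 p.2.2 t := by
  by_cases hex : ∃ p : List (ℕ × ℕ) × ℕ × Bool, IsNode p.1 p.2.1 p.2.2 t
  · rw [co, dif_pos hex, Option.some.injEq] at h
    rw [← h]
    exact hex.choose_spec
  · rw [co, dif_neg hex] at h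
    exact absurd h (by simp)

/-- visible nodes have small indices -/
theorem vis_lt {s : List (ℕ × ℕ)} {t m' : ℕ} (h : Vis s t m') : t < pidx s := by
  induction h with
  | here a s m b m' hm hm' =>
    have h1 : Nat.pair (pidx s) m < Nat.pair (pidx s) (Nat.pair (a.1 + 1) a.2) := by
      apply Nat.pair_lt_pair_right
      have := Nat.left_le_pair (a.1 + 1) a.2
      omega
    simp only [nidx, pidx]
    cases b <;> simp <;> omega
  | later a s t m' h ih =>
    have h1 := Nat.left_le_pair (pidx s) (Nat.pair (a.1 + 1) a.2)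
    simp only [pidx]
    omega

/-- readings of visible nodes are small -/
theorem vis_reading_lt {s : List (ℕ × ℕ)} {t m' : ℕ} (h : Vis s t m') : m' < pidx s := by
  induction h with
  | here a s m b m' hm hm' =>
    have h1 := Nat.left_le_pair (a.1 + 1) a.2
    have h2 := Nat.right_le_pair (pidx s) (Nat.pair (a.1 + 1) a.2)
    simp only [pidx]
    omega
  | later a s t m' h ih =>
    have h1 := Nat.left_le_pair (pidx s) (Nat.pair (a.1 + 1) a.2)
    simp only [pidx]
    omega

theorem lab_snd_le (s : List (ℕ × ℕ)) : (lab s).2 ≤ pidx s := by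
  cases s with
  | nil => simp [lab]
  | cons a s =>
    have h1 : (Nat.unpair (a.2 / 2)).2 ≤ a.2 / 2 := Nat.unpair_right_le _
    have h2 := Nat.right_le_pair (a.1 + 1) a.2
    have h3 := Nat.right_le_pair (pidx s) (Nat.pair (a.1 + 1) a.2)
    simp only [lab, pidx]
    omega

theorem lt_nidx (s : List (ℕ × ℕ)) (m : ℕ) (b : Bool) : pidx s < nidx s m b := by
  have h1 := Nat.left_le_pair (pidx s) m
  simp only [nidx]
  cases b <;> simp <;> omega

theorem IsNode.lab_lt {s : List (ℕ × ℕ)} {m : ℕ} {b : Bool} {t : ℕ} (h : IsNode s m b t) :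
    (lab s).1 < pidx s := by
  rcases h.2.2 with h0 | h1
  · rw [h0]
    exact pidx_pos h.2.1
  · exact vis_lt h1

/-- the concrete index system -/
noncomputable def idx0 : Idx where
  par t := ((co t).map fun p => (lab p.1).1).getD 0
  th t := ((co t).map fun p => pidx p.1).getD 0
  rd t := ((co t).map fun p => p.2.1).getD 0
  mp t := ((co t).map fun p => (lab p.1).2).getD 0
  par_lt t ht := by
    cases h : co t with
    | none => simpa using ht
    | some p =>
      have h1 := co_some h
      have h2 := IsNode.lab_lt h1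
      have h3 := lt_nidx p.1 p.2.1 p.2.2
      rw [← h1.1] at h3
      simp only [Option.map_some, Option.getD_some]
      omega
  th_lt t ht := by
    cases h : co t with
    | none => simpa using ht
    | some p =>
      have h1 := co_some h
      have h3 := lt_nidx p.1 p.2.1 p.2.2
      rw [← h1.1] at h3
      simpa using h3
  par_lt_th t ht := by
    cases h : co t with
    | none =>
      rw [h] at ht
      simp at ht
    | some p =>
      have h1 := co_some h
      have h2 := IsNode.lab_lt h1
      simpa using h2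
  mp_le t := by
    cases h : co t with
    | none => simp
    | some p => simpa using lab_snd_le p.1

theorem idx : IdxStmt := by
  refine ⟨idx0, ?_, ?_⟩
  · intro s m b t h
    have h1 := IsNode.co h
    simp only [idx0, h1, Option.map_some, Option.getD_some, and_self]
  · intro t ht
    cases h : co t with
    | none =>
      simp only [idx0, h] at ht
      simp at ht
    | some p => exact ⟨_, _, _, co_some h⟩

end Pool.Agent.HNF.H5
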