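import Pool.Agent.Helper71_HNF.Stmt

/-!
# HNF, module SEP

Right separated sequences in every neighbourhood of `1` of a Polish group which is not locally
compact: Polish groups are complete for the two-sided uniformity.
-/

set_option autoImplicit false

namespace Pool.Agent.HNF.H5

open Topology Set Filter Uniformity

/-- Completely metrizable groups are complete for the two-sided uniformity (sequences). -/
theorem complete_twoSided {G : Type*} [Group G] [TopologicalSpace G] [IsTopologicalGroup G]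
    [TopologicalSpace.IsCompletelyMetrizableSpace G] (x : ℕ → G)
    (hl : ∀ U ∈ 𝓝 (1 : G), ∃ N, ∀ n ≥ N, ∀ m ≥ N, (x n)⁻¹ * x m ∈ U)
    (hr : ∀ U ∈ 𝓝 (1 : G), ∃ N, ∀ n ≥ N, ∀ m ≥ N, x n * (x m)⁻¹ ∈ U) :
    ∃ y, Tendsto x atTop (𝓝 y) := by
  let _ := TopologicalSpace.upgradeIsCompletelyMetrizable G
  set D : ℕ → Set G := fun k => {h | ∃ O : Set G, IsOpen O ∧ h ∈ O ∧ ∃ N, ∀ h' ∈ O,
    ∀ n ≥ N, ∀ m ≥ N, dist (x n * h') (x m * h') < 1 / ((k : ℝ) + 1)} with hD
  have hopen : ∀ k, IsOpen (D k) := by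
    intro k
    rw [isOpen_iff_mem_nhds]
    rintro h ⟨O, hO, hhO, N, hN⟩
    exact mem_of_superset (hO.mem_nhds hhO) fun h' hh' => ⟨O, hO, hh', N, hN⟩
  have hdense : ∀ k, Dense (D k) := by
    intro k h₀
    rw [mem_closure_iff]
    intro O hO hh₀
    have hO1 : {g : G | g * h₀ ∈ O} ∈ 𝓝 (1 : G) := by
      have hc : Continuous fun g : G => g * h₀ := by fun_prop
      apply hc.continuousAt
      simpa using hO.mem_nhds hh₀
    obtain ⟨m₀, hm₀⟩ := hl _ hO1
    set q := x m₀ * h₀ with hq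
    have hk : (0 : ℝ) < 1 / ((k : ℝ) + 1) := by positivity
    -- small neighbourhood of `1`: `a * q * b` near `q`
    have hc2 : Continuous fun p : G × G => p.1 * q * p.2 := by fun_prop
    have hW : {p : G × G | dist (p.1 * q * p.2) q < 1 / ((k : ℝ) + 1) / 2} ∈
        𝓝 ((1, 1) : G × G) := by
      have h1 : Metric.ball q (1 / ((k : ℝ) + 1) / 2) ∈ 𝓝 (1 * q * 1) := by
        rw [one_mul, mul_one]
        exact Metric.ball_mem_nhds q (half_pos hk)
      exact (hc2.continuousAt (x := ((1, 1) : G × G))).preimage_mem_nhds h1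
    rw [nhds_prod_eq, mem_prod_iff] at hW
    obtain ⟨W₁, hW₁, W₂, hW₂, hW⟩ := hW
    obtain ⟨N, hN⟩ := hr W₁ hW₁
    set m := max m₀ N with hm
    set h₁ := (x m)⁻¹ * x m₀ * h₀ with hh₁
    refine ⟨h₁, hm₀ m (le_max_left _ _) m₀ le_rfl, ?_⟩
    have hc3 : Continuous fun h' : G => h₁⁻¹ * h' := by fun_prop
    have hO' : {h' : G | h₁⁻¹ * h' ∈ interior W₂} ∈ 𝓝 h₁ := by
      have h1 : interior W₂ ∈ 𝓝 (h₁⁻¹ * h₁) := by
        rw [inv_mul_cancel]
        exact isOpen_interior.mem_nhds (mem_interior_iff_mem_nhds.2 hW₂)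
      exact hc3.continuousAt.preimage_mem_nhds h1
    refine ⟨{h' | h₁⁻¹ * h' ∈ interior W₂}, isOpen_interior.preimage hc3, ?_, m, ?_⟩
    · exact mem_of_mem_nhds hO'
    · intro h' hh' n hn n' hn'
      have key : ∀ i ≥ m, dist (x i * h') q < 1 / ((k : ℝ) + 1) / 2 := by
        intro i hi
        have h1 : x i * (x m)⁻¹ ∈ W₁ :=
          hN i ((le_max_right _ _).trans hi) m (le_max_right _ _)
        have h2 : h₁⁻¹ * h' ∈ W₂ := interior_subset hh'
        have h3 := hW (mk_mem_prod h1 h2)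
        have h4 : x i * (x m)⁻¹ * q * (h₁⁻¹ * h') = x i * h' := by
          rw [hq, hh₁]; group
        simp only [mem_ofPred_eq] at h3
        rw [h4] at h3
        exact h3
      have h1 := dist_triangle_right (x n * h') (x n' * h') q
      linarith [key n hn, key n' hn']
  obtain ⟨h, hh⟩ : ∃ h, h ∈ ⋂ k, D k :=
    (dense_iInter_of_isOpen_nat hopen hdense).nonempty
  have hcau : CauchySeq fun n => x n * h := by
    rw [Metric.cauchySeq_iff]
    intro ε hε
    obtain ⟨k, hk⟩ := exists_nat_one_div_lt hε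
    obtain ⟨O, -, hhO, N, hN⟩ := mem_iInter.1 hh k
    exact ⟨N, fun m hm n hn => (hN h hhO m hm n hn).trans hk⟩
  obtain ⟨y, hy⟩ := cauchySeq_tendsto_of_complete hcau
  refine ⟨y * h⁻¹, ?_⟩
  have h1 : Tendsto (fun n => x n * h * h⁻¹) atTop (𝓝 (y * h⁻¹)) :=
    hy.mul tendsto_const_nhds
  simpa using h1

/-- the two-sided uniform structure -/
@[reducible] def twoSided (G : Type*) [Group G] [tG : TopologicalSpace G]
    [IsTopologicalGroup G] : UniformSpace G :=
  (IsTopologicalGroup.leftUniformSpace G ⊓ IsTopologicalGroup.rightUniformSpace G).replaceTopology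
    (by
      rw [UniformSpace.toTopologicalSpace_inf]
      exact (inf_idem tG).symm)

theorem uniformity_twoSided (G : Type*) [Group G] [TopologicalSpace G] [IsTopologicalGroup G] :
    @uniformity G (twoSided G) = comap (fun p : G × G => p.1⁻¹ * p.2) (𝓝 1) ⊓
      comap (fun p : G × G => p.2 * p.1⁻¹) (𝓝 1) := by
  rfl

theorem sep : SepStmt := by
  intro G _ _ _ _ hlc A hA
  by_contra hcon
  push Not at hcon
  apply hlc
  -- symmetric neighbourhood
  set A' : Set G := A ∩ A⁻¹ with hA'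
  have hA'1 : A' ∈ 𝓝 (1 : G) := by
    refine inter_mem hA ?_
    exact inv_mem_nhds_one G hA
  have hA'inv : ∀ x ∈ A', x⁻¹ ∈ A' := by
    rintro x ⟨h1, h2⟩
    exact ⟨h2, by simpa using h1⟩
  -- total boundedness on the right
  have hfin : ∀ V ∈ 𝓝 (1 : G), ∃ S : Finset G, ∀ x ∈ A', ∃ s ∈ S, x * s⁻¹ ∈ V := by
    intro V hV
    by_contra hno
    push Not at hno
    obtain ⟨θ, hθ1, hθ2⟩ := exists_seq_of_forall_finset_exists (fun x : G => x ∈ A')
      (fun x y : G => y * x⁻¹ ∉ V) (fun S _ => by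
        obtain ⟨x, hx, h⟩ := hno S
        exact ⟨x, hx, h⟩)
    obtain ⟨l, l', hll', hmem⟩ := hcon (V ∩ V⁻¹) (inter_mem hV (inv_mem_nhds_one G hV)) θ
      (fun l => (hθ1 l).1)
    rcases lt_or_gt_of_ne hll' with h | h
    · refine hθ2 l l' h ?_
      have := hmem.2
      simpa using this
    · exact hθ2 l' l h hmem.1
  let _ : UniformSpace G := twoSided G
  have hcg : (𝓤 G).IsCountablyGenerated := by
    rw [uniformity_twoSided G]
    infer_instance
  have hcompl : CompleteSpace G := by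
    apply UniformSpace.complete_of_cauchySeq_tendsto
    intro u hu
    rw [cauchySeq_iff] at hu
    apply complete_twoSided u
    · intro U hU
      refine hu {p | p.1⁻¹ * p.2 ∈ U} ?_
      rw [uniformity_twoSided G]
      exact mem_inf_of_left (preimage_mem_comap hU)
    · intro U hU
      obtain ⟨N, hN⟩ := hu {p | p.2 * p.1⁻¹ ∈ U} (by
        rw [uniformity_twoSided G]
        exact mem_inf_of_right (preimage_mem_comap hU))
      exact ⟨N, fun n hn m hm => hN m hm n hn⟩
  have htb : TotallyBounded A' := by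
    rw [totallyBounded_iff_ultrafilter]
    intro f hf
    rw [le_principal_iff] at hf
    refine ⟨f.neBot, ?_⟩
    rw [uniformity_twoSided G, le_inf_iff]
    constructor
    · rw [← tendsto_iff_comap]
      intro U hU
      obtain ⟨V, hV, hVU⟩ : ∃ V ∈ 𝓝 (1 : G), ∀ v ∈ V, ∀ w ∈ V, v * w⁻¹ ∈ U := by
        have hc : Continuous fun p : G × G => p.1 * p.2⁻¹ := by fun_prop
        have h1 : {p : G × G | p.1 * p.2⁻¹ ∈ U} ∈ 𝓝 ((1, 1) : G × G) := by
          apply hc.continuousAt
          simpa using hU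
        rw [nhds_prod_eq, mem_prod_same_iff] at h1
        obtain ⟨V, hV, h⟩ := h1
        exact ⟨V, hV, fun v hv w hw => h (mk_mem_prod hv hw)⟩
      obtain ⟨S, hS⟩ := hfin V hV
      have hcov : (⋃ s ∈ (S : Set G), {x : G | x⁻¹ * s⁻¹ ∈ V}) ∈ (f : Filter G) := by
        refine mem_of_superset hf fun x hx => ?_
        obtain ⟨s, hs, h⟩ := hS _ (hA'inv x hx)
        exact mem_biUnion (show s ∈ (S : Set G) from hs) h
      rw [Ultrafilter.mem_coe, Ultrafilter.finite_biUnion_mem_iff S.finite_toSet] at hcov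
      obtain ⟨s, -, hs⟩ := hcov
      rw [mem_map]
      refine mem_of_superset (prod_mem_prod hs hs) ?_
      rintro ⟨x, y⟩ ⟨hx, hy⟩
      have := hVU _ hx _ hy
      simp only [mem_preimage]
      convert this using 1
      group
    · rw [← tendsto_iff_comap]
      intro U hU
      obtain ⟨V, hV, hVU⟩ : ∃ V ∈ 𝓝 (1 : G), ∀ v ∈ V, ∀ w ∈ V, v * w⁻¹ ∈ U := by
        have hc : Continuous fun p : G × G => p.1 * p.2⁻¹ := by fun_prop
        have h1 : {p : G × G | p.1 * p.2⁻¹ ∈ U} ∈ 𝓝 ((1, 1) : G × G) := by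
          apply hc.continuousAt
          simpa using hU
        rw [nhds_prod_eq, mem_prod_same_iff] at h1
        obtain ⟨V, hV, h⟩ := h1
        exact ⟨V, hV, fun v hv w hw => h (mk_mem_prod hv hw)⟩
      obtain ⟨S, hS⟩ := hfin V hV
      have hcov : (⋃ s ∈ (S : Set G), {x : G | x * s⁻¹ ∈ V}) ∈ (f : Filter G) := by
        refine mem_of_superset hf fun x hx => ?_
        obtain ⟨s, hs, h⟩ := hS _ hx
        exact mem_biUnion (show s ∈ (S : Set G) from hs) h
      rw [Ultrafilter.mem_coe, Ultrafilter.finite_biUnion_mem_iff S.finite_toSet] at hcov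
      obtain ⟨s, -, hs⟩ := hcov
      rw [mem_map]
      refine mem_of_superset (prod_mem_prod hs hs) ?_
      rintro ⟨x, y⟩ ⟨hx, hy⟩
      have := hVU _ hy _ hx
      simp only [mem_preimage]
      convert this using 1
      group
  have hcomp : IsCompact (closure A') :=
    isCompact_iff_totallyBounded_isComplete.2 ⟨htb.closure, isClosed_closure.isComplete⟩
  exact hcomp.locallyCompactSpace_of_mem_nhds_of_group
    (mem_of_superset hA'1 subset_closure)

end Pool.Agent.HNF.H5
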